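import Pool.Agent.Helper20.RG.St3

/-!
# Project RG, module CHI: children of a chord
-/

set_option autoImplicit false

open MeasureTheory Set Filter Topology

namespace Pool.Agent.Helper95.RG

open Pool.Agent.Helper20.RG Pool.Agent.Helper68.LM

theorem tau_mono_CHI {φ τ : ℝ → ℝ} (h : Graph φ τ) : Monotone τ := by
  intro a b hab
  rcases eq_or_lt_of_le hab with rfl | hlt
  · exact le_rfl
  · have h1 := h.2 a b hab
    have h2 : τ a * (b - a) ≤ τ b * (b - a) := h1.1.trans h1.2
    exact le_of_mul_le_mul_right h2 (by linarith)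

theorem tm_even_CHI (u j : ℕ) : tm (u + 1) (2 * j) = tm u j - 1 / (4 * (2 : ℝ) ^ u) := by
  unfold tm
  rw [pow_succ]
  push_cast
  field_simp
  ring

theorem tm_odd_CHI (u j : ℕ) : tm (u + 1) (2 * j + 1) = tm u j + 1 / (4 * (2 : ℝ) ^ u) := by
  unfold tm
  rw [pow_succ]
  push_cast
  field_simp
  ring

theorem hCHI (hPT : StPT) (hMM : StMM) : StCHI := by
  intro φ τ A σ c hG hGap hA hσ u j hu hj
  have hmono := tau_mono_CHI hG
  have hP : (0 : ℝ) < 2 ^ u := by positivity
  set h : ℝ := 1 / (4 * (2 : ℝ) ^ u) with hh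
  have hh0 : 0 < h := by positivity
  have hjr : ((j : ℝ) + 1) ≤ 2 ^ u := by exact_mod_cast hj
  have hj0 : (0 : ℝ) ≤ j := Nat.cast_nonneg _
  set t := tm u j with ht
  have ht1 : t = ((j : ℝ) + 1 / 2) / 2 ^ u := rfl
  have hh1 : h = (1 / 4) / 2 ^ u := by
    rw [hh]
    field_simp
  -- the interval of the turning
  have hlow : max 0 (((j : ℝ) - 1) / 2 ^ u) ≤ t - h := by
    rw [ht1, hh1, ← sub_div]
    apply max_le
    · apply div_nonneg _ hP.le
      linarith
    · exact div_le_div_of_nonneg_right (by linarith) hP.le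
  have hup : t + h ≤ min 1 (((j : ℝ) + 2) / 2 ^ u) := by
    rw [ht1, hh1, ← add_div]
    apply le_min
    · rw [div_le_one hP]
      linarith
    · exact div_le_div_of_nonneg_right (by linarith) hP.le
  have a1 := hmono hlow
  have a2 := hmono hup
  have a3 : τ (t - h) ≤ τ t := hmono (by linarith)
  have a4 : τ t ≤ τ (t + h) := hmono (by linarith)
  have htr : τ (t + h) - τ (t - h) ≤ trn τ u j := by
    unfold trn
    linarith
  have hmm := (hMM φ τ A σ hG hGap hA hσ u j hu hj).2.2.1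
  have hz : (2 : ℝ) ^ (-(mm τ u j : ℤ)) = ((2 : ℝ) ^ (mm τ u j))⁻¹ := by
    rw [zpow_neg, zpow_natCast]
  have hmp : (0 : ℝ) < 2 ^ (mm τ u j) := by positivity
  have htb : trn τ u j ≤ (2 : ℝ) ^ (-(mm τ u j : ℤ)) * (2 : ℝ) ^ u := by
    rw [hz, inv_mul_eq_div, le_div_iff₀ hmp]
    linarith
  set B : ℝ := (2 : ℝ) ^ (-(mm τ u j : ℤ)) with hB
  have hB0 : 0 < B := by positivity
  -- the graph
  have g1 := hG.2 (t - h) t (by linarith)
  have g2 := hG.2 t (t + h) (by linarith)
  have e1 : t - (t - h) = h := by ring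
  have e2 : t + h - t = h := by ring
  rw [e1] at g1
  rw [e2] at g2
  have hBh : B * (2 : ℝ) ^ u * h = B / 4 := by
    rw [hh]
    field_simp
  have k1 : (τ t - τ (t - h)) * h ≤ B / 4 := by
    rw [← hBh]
    exact mul_le_mul_of_nonneg_right (by linarith) hh0.le
  have k2 : (τ (t + h) - τ t) * h ≤ B / 4 := by
    rw [← hBh]
    exact mul_le_mul_of_nonneg_right (by linarith) hh0.le
  have c0 : ∀ u' j', (ce c φ u' j') 0 = c 0 + tm u' j' := by
    intro u' j'
    unfold ce
    rw [PiLp.add_apply, (hPT.1 _ _).1]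
  have c1 : ∀ u' j', (ce c φ u' j') 1 = c 1 + φ (tm u' j') := by
    intro u' j'
    unfold ce
    rw [PiLp.add_apply, (hPT.1 _ _).2]
  have d1 : τ t / (4 * (2 : ℝ) ^ u) = τ t * h := by
    rw [hh]
    ring
  rw [c0, c0, c0, c1, c1, c1, tm_even_CHI, tm_odd_CHI, ← ht, ← hh, d1]
  refine ⟨?_, ?_, by ring, by ring, ?_, ?_⟩
  · rw [abs_le]
    constructor <;> linarith
  · rw [abs_le]
    constructor <;> linarith
  · rw [abs_le]
    constructor <;> nlinarith
  · rw [abs_le]
    constructor <;> nlinarith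

end Pool.Agent.Helper95.RG
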